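import Pool.Agent.P.MP_7badbe_co.Lower2

/-! The density of independent sets of a uniform family (Moon-Moser, de Caen chain). -/

set_option autoImplicit false

open Finset
open scoped BigOperators

namespace Pool.Agent.P.MP_7badbe_co

variable {V : Type}

lemma splitSum_zero' (Φ : Multiset V → Multiset V → ℝ) (M : Multiset V) :
    splitSum 0 Φ M = Φ 0 M := by
  induction M using Multiset.induction_on generalizing Φ with
  | empty => simp [splitSum]
  | cons v M ih => rw [splitSum_zero_cons, ih]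

lemma splitSum_mono' {r : ℕ} {Φ Ψ : Multiset V → Multiset V → ℝ} {M : Multiset V}
    (h : ∀ I J, I + J = M → Φ I J ≤ Ψ I J) : splitSum r Φ M ≤ splitSum r Ψ M := by
  unfold splitSum
  refine Multiset.sum_map_le_sum_map _ _ (fun p hp => ?_)
  split_ifs
  exacts [h _ _ (Multiset.mem_antidiagonal.1 hp), le_rfl]

lemma splitSum_one_const (c : ℝ) (M : Multiset V) :
    splitSum 1 (fun _ _ => c) M = M.card * c := by
  induction M using Multiset.induction_on with
  | empty => simp [splitSum]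
  | cons v M ih =>
    rw [splitSum_succ_cons 0, splitSum_zero', zero_add, ih, Multiset.card_cons]
    push_cast
    ring

lemma splitSum_not_le (M J : Multiset V) (h : J ≤ M) :
    splitSum 1 (fun _ K => ind (¬ J ≤ K)) M ≤ J.card := by
  classical
  induction M using Multiset.induction_on generalizing J with
  | empty => simp [splitSum]
  | cons v M ih =>
    rw [splitSum_succ_cons 0, splitSum_zero', zero_add]
    by_cases hv : v ∈ J
    · obtain ⟨J', rfl⟩ := Multiset.exists_cons_of_mem hv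
      have h1 := ih J' ((Multiset.cons_le_cons_iff v).1 h)
      simp only [Multiset.cons_le_cons_iff, Multiset.card_cons]
      push_cast
      linarith [ind_le_one (¬ v ::ₘ J' ≤ M)]
    · have h0 := (Multiset.le_cons_of_notMem hv).1 h
      rw [ind_neg (not_not.2 h0), add_zero]
      refine le_trans (splitSum_mono' (fun _ K _ => ?_)) (ih J h0)
      exact ind_mono (fun h2 h3 => h2 (h3.trans (Multiset.le_cons_self _ _)))

lemma Indep.of_le {L : Multiset V → Prop} {r : ℕ} {M K : Multiset V} (h : Indep L r M)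
    (hK : K ≤ M) : Indep L r K := fun J hJ => h J (hJ.trans hK)

lemma chain_point (L : Multiset V → Prop) (ρ : ℕ) (x : V) (M : Multiset V) :
    splitSum 1 (fun Y K => ind (Indep L (ρ + 1) (Y + K)) * ind (Indep L (ρ + 1) (x ::ₘ K))) M
      ≤ M.card * ind (Indep L (ρ + 1) (x ::ₘ M))
        + ρ * (ind (Indep L (ρ + 1) M) - ind (Indep L (ρ + 1) (x ::ₘ M))) := by
  classical
  by_cases hM : Indep L (ρ + 1) M
  · by_cases hx : Indep L (ρ + 1) (x ::ₘ M)
    · rw [ind_pos hM, ind_pos hx, sub_self, mul_zero, add_zero, ← splitSum_one_const]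
      refine splitSum_mono' (fun Y K _ => ?_)
      exact mul_le_one₀ (ind_le_one _) (ind_nonneg _) (ind_le_one _)
    · rw [ind_pos hM, ind_neg hx, mul_zero, zero_add, sub_zero, mul_one]
      unfold Indep at hx
      push Not at hx
      obtain ⟨J, hJ, hc, hL⟩ := hx
      have hvJ : x ∈ J := by
        by_contra hn
        exact hM J ((Multiset.le_cons_of_notMem hn).1 hJ) hc hL
      obtain ⟨I, rfl⟩ := Multiset.exists_cons_of_mem hvJ
      have h1 := splitSum_not_le M I ((Multiset.cons_le_cons_iff x).1 hJ)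
      have h2 : I.card = ρ := by simpa using hc
      rw [h2] at h1
      refine le_trans (splitSum_mono' (fun Y K _ => ?_)) h1
      refine (mul_le_of_le_one_left (ind_nonneg _) (ind_le_one _)).trans (ind_mono ?_)
      exact fun h3 h4 => h3 _ (Multiset.cons_le_cons x h4) hc hL
  · have hx : ¬ Indep L (ρ + 1) (x ::ₘ M) := fun h => hM (h.of_le (Multiset.le_cons_self _ _))
    rw [ind_neg hM, ind_neg hx, sub_self, mul_zero, mul_zero, add_zero]
    refine (splitSum_mono' (Ψ := fun _ _ => 0) (fun Y K h => ?_)).trans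
      (by rw [splitSum_one_const, mul_zero])
    rw [h, ind_neg hM, zero_mul]

variable [Fintype V] [Nonempty V]

lemma chain_step (L : Multiset V → Prop) (ρ u : ℕ) (l : ℝ) :
    ((u : ℝ) + 1) * (2 * l * Ex (u + 1) (fun T => ind (Indep L (ρ + 1) T))
        - l ^ 2 * Ex u (fun T => ind (Indep L (ρ + 1) T)))
      ≤ ((u : ℝ) + 1) * Ex (u + 2) (fun T => ind (Indep L (ρ + 1) T))
        + ρ * (Ex (u + 1) (fun T => ind (Indep L (ρ + 1) T))
          - Ex (u + 2) (fun T => ind (Indep L (ρ + 1) T))) := by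
  have h1 : 𝔼 x : V, Ex (u + 1) (splitSum 1 (fun Y K =>
        ind (Indep L (ρ + 1) (Y + K)) * ind (Indep L (ρ + 1) (x ::ₘ K))))
      ≤ 𝔼 x : V, Ex (u + 1) (fun M => ((u : ℝ) + 1) * ind (Indep L (ρ + 1) (x ::ₘ M))
        + ρ * (ind (Indep L (ρ + 1) M) - ind (Indep L (ρ + 1) (x ::ₘ M)))) := by
    refine expect_le_expect (fun x _ => Ex_mono (fun M hM => ?_))
    have := chain_point L ρ x M
    rw [hM] at this
    exact_mod_cast this
  simp only [Ex_add, Ex_mul, Ex_sub, expect_add_distrib, expect_sub_distrib, ← mul_expect,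
    expect_const univ_nonempty, Ex_splitSum, Nat.choose_one_right, Nat.add_sub_cancel] at h1
  rw [← Ex_succ (u + 1) (fun T => ind (Indep L (ρ + 1) T))] at h1
  refine le_trans ?_ h1
  push_cast
  refine mul_le_mul_of_nonneg_left ?_ (by positivity)
  have h2 : 𝔼 x : V, Ex 1 (fun Y => Ex u (fun K =>
        ind (Indep L (ρ + 1) (Y + K)) * ind (Indep L (ρ + 1) (x ::ₘ K))))
      = Ex u (fun K => (𝔼 y : V, ind (Indep L (ρ + 1) (y ::ₘ K))) ^ 2) := by
    simp only [Ex_succ 0, Ex_zero, Multiset.cons_add, zero_add, ← Ex_expect]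
    refine Ex_congr (fun K _ => ?_)
    simp only [← expect_mul, ← mul_expect]
    ring
  rw [h2, Ex_succ', ← Ex_mul, ← Ex_mul, ← Ex_sub]
  refine Ex_mono (fun K _ => ?_)
  by_cases hK : Indep L (ρ + 1) K
  · rw [ind_pos hK]
    nlinarith [sq_nonneg (𝔼 y : V, ind (Indep L (ρ + 1) (y ::ₘ K)) - l)]
  · have h3 : 𝔼 y : V, ind (Indep L (ρ + 1) (y ::ₘ K)) = 0 := by
      refine expect_eq_zero (fun y _ => ind_neg (fun h => hK (h.of_le ?_)))
      exact Multiset.le_cons_self _ _
    rw [ind_neg hK, h3]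
    simp

lemma chain_small (L : Multiset V → Prop) {ρ t : ℕ} (ht : t ≤ ρ) :
    Ex t (fun T => ind (Indep L (ρ + 1) T)) = 1 := by
  rw [← Ex_const (V := V) t 1]
  refine Ex_congr (fun M hM => ind_pos (fun J hJ hc => ?_))
  have := Multiset.card_le_card hJ
  omega

lemma chain_ratio (L : Multiset V → Prop) (ρ t : ℕ) :
    Ex t (fun T => ind (Indep L (ρ + 1) T))
        * (1 - Ex (ρ + 1) (fun J => ind (L J)) * t.choose ρ)
      ≤ Ex (t + 1) (fun T => ind (Indep L (ρ + 1) T)) := by
  rcases lt_or_ge t ρ with h | h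
  · rw [chain_small L h.le, chain_small L h, Nat.choose_eq_zero_of_lt h]
    simp
  induction t, h using Nat.le_induction with
  | base =>
    rw [chain_small L le_rfl, Nat.choose_self, Nat.cast_one, mul_one, one_mul,
      ← Ex_const (V := V) (ρ + 1) 1, ← Ex_sub]
    refine Ex_mono (fun M hM => ?_)
    rw [← ind_not]
    refine ind_mono (fun h J hJ hc => ?_)
    rwa [Multiset.eq_of_le_of_card_le hJ (by omega)]
  | succ u hu ih =>
    set p := Ex (ρ + 1) (fun J => ind (L J)) with hp
    set a := Ex u (fun T => ind (Indep L (ρ + 1) T)) with ha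
    set b := Ex (u + 1) (fun T => ind (Indep L (ρ + 1) T)) with hb
    set d := Ex (u + 1 + 1) (fun T => ind (Indep L (ρ + 1) T)) with hd
    have ha0 : 0 ≤ a := Ex_nonneg (fun _ _ => ind_nonneg _)
    have hb0 : 0 ≤ b := Ex_nonneg (fun _ _ => ind_nonneg _)
    have hd0 : 0 ≤ d := Ex_nonneg (fun _ _ => ind_nonneg _)
    have hc : (u.choose ρ : ℝ) * (u + 1) = ((u + 1).choose ρ : ℝ) * ((u : ℝ) + 1 - ρ) := by
      have := Nat.choose_mul_succ_eq u ρ
      have h2 : ((u + 1 - ρ : ℕ) : ℝ) = (u : ℝ) + 1 - ρ := by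
        rw [Nat.cast_sub (by omega)]
        push_cast
        ring
      rw [← h2]
      exact_mod_cast this
    have hpos : (0 : ℝ) < (u : ℝ) + 1 - ρ := by
      have : (ρ : ℝ) ≤ u := by exact_mod_cast hu
      linarith
    rcases le_or_gt (1 - p * u.choose ρ) 0 with h0 | h0
    · have h3 : (u.choose ρ : ℝ) ≤ (u + 1).choose ρ := by
        exact_mod_cast Nat.choose_le_succ u ρ
      have hp0 : 0 ≤ p := Ex_nonneg (fun _ _ => ind_nonneg _)
      have h4 : 1 - p * ((u + 1).choose ρ : ℝ) ≤ 0 := by nlinarith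
      exact (mul_nonpos_of_nonneg_of_nonpos hb0 h4).trans hd0
    have h1 : ((u : ℝ) + 1) * (2 * (1 - p * u.choose ρ) * b - (1 - p * u.choose ρ) ^ 2 * a)
        ≤ ((u : ℝ) + 1) * d + ρ * (b - d) := chain_step L ρ u _
    have h2 : (1 - p * u.choose ρ) * b
        ≤ 2 * (1 - p * u.choose ρ) * b - (1 - p * u.choose ρ) ^ 2 * a := by
      nlinarith [mul_le_mul_of_nonneg_left ih h0.le]
    have h3 := (mul_le_mul_of_nonneg_left h2 (by positivity : (0 : ℝ) ≤ (u : ℝ) + 1)).trans h1
    refine le_of_mul_le_mul_left ?_ hpos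
    have h4 : ((u : ℝ) + 1 - ρ) * (b * (1 - p * ((u + 1).choose ρ : ℝ)))
        = ((u : ℝ) + 1 - ρ) * b - b * p * (((u + 1).choose ρ : ℝ) * ((u : ℝ) + 1 - ρ)) := by ring
    rw [h4, ← hc]
    nlinarith

/-- the density of independent `m`-sets -/
lemma chain_exp (L : Multiset V → Prop) (ρ m : ℕ)
    (h : 2 * (Ex (ρ + 1) (fun J => ind (L J)) * m.choose ρ) ≤ 1) :
    Real.exp (-(2 * (Ex (ρ + 1) (fun J => ind (L J)) * m.choose (ρ + 1))))
      ≤ Ex m (fun T => ind (Indep L (ρ + 1) T)) := by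
  have hp0 : 0 ≤ Ex (ρ + 1) (fun J => ind (L J)) := Ex_nonneg (fun _ _ => ind_nonneg _)
  induction m with
  | zero => rw [chain_small L (Nat.zero_le _)]; simp
  | succ t ih =>
    have h3 : (t.choose ρ : ℝ) ≤ (t + 1).choose ρ := by exact_mod_cast Nat.choose_le_succ t ρ
    have h4 : 2 * (Ex (ρ + 1) (fun J => ind (L J)) * t.choose ρ) ≤ 1 := by nlinarith
    have h5 := one_sub_pow_ge (x := Ex (ρ + 1) (fun J => ind (L J)) * t.choose ρ)
      (by positivity) h4 1
    rw [pow_one, Nat.cast_one, mul_one] at h5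
    refine le_trans ?_ (chain_ratio L ρ t)
    refine le_trans (le_of_eq ?_) (mul_le_mul (ih h4) h5 (Real.exp_pos _).le
      (Ex_nonneg (fun _ _ => ind_nonneg _)))
    rw [← Real.exp_add, Nat.choose_succ_succ']
    push_cast
    congr 1
    ring

/-- few sets `T` are independent in the link of `S` -/
theorem lower_chain {i ρ m : ℕ} (him : i + (ρ + 1) = m + 1) (g : Multiset V → Prop)
    (hg : Hit i m g) (h : 4 * (Ex (m + 1) (fun M => ind (g M)) * m.choose ρ) ≤ 1) :
    Real.exp (-(4 * (Ex (m + 1) (fun M => ind (g M)) * m.choose (ρ + 1))))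
      ≤ 2 * (i * Ex (m + 1) (fun M => ind (g M))) := by
  set δ := Ex (m + 1) (fun M => ind (g M)) with hδ
  have hδ0 : 0 ≤ δ := Ex_nonneg (fun _ _ => ind_nonneg _)
  set E := Real.exp (-(4 * (δ * m.choose (ρ + 1)))) with hE
  have hE0 : 0 < E := Real.exp_pos _
  have hs : δ = Ex i (fun S => Ex (ρ + 1) (fun J => ind (g (S + J)))) := by
    rw [hδ, ← him, Ex_split]
  have h1 : ∀ S : Multiset V, S.card = i →
      E * (2 * δ - Ex (ρ + 1) (fun J => ind (g (S + J))))
        ≤ 2 * δ * Ex m (fun T => (S.map (fun s => ind (g (s ::ₘ T)))).sum) := by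
    intro S hS
    set q := Ex (ρ + 1) (fun J => ind (g (S + J))) with hq
    have hq0 : 0 ≤ q := Ex_nonneg (fun _ _ => ind_nonneg _)
    have h2 : Ex m (fun T => ind (Indep (fun J => g (S + J)) (ρ + 1) T))
        ≤ Ex m (fun T => (S.map (fun s => ind (g (s ::ₘ T)))).sum) := by
      refine Ex_mono (fun T hT => le_trans (ind_mono (fun hI => ?_)) (ind_le_mapsum _ S))
      rcases hg S T hS hT with ⟨J, hJ, hc, hgJ⟩ | h3
      · exact absurd hgJ (hI J hJ (by omega))
      · exact h3
    have h3 : 0 ≤ Ex m (fun T => ind (Indep (fun J => g (S + J)) (ρ + 1) T)) :=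
      Ex_nonneg (fun _ _ => ind_nonneg _)
    rcases le_total q (2 * δ) with h4 | h4
    · have hc0 : (0 : ℝ) ≤ m.choose ρ := Nat.cast_nonneg _
      have hc1 : (0 : ℝ) ≤ m.choose (ρ + 1) := Nat.cast_nonneg _
      have h5 := chain_exp (fun J => g (S + J)) ρ m (by nlinarith)
      have h6 : E ≤ Real.exp (-(2 * (q * m.choose (ρ + 1)))) :=
        Real.exp_le_exp.2 (by nlinarith)
      have h7 := (h6.trans h5).trans h2
      nlinarith [mul_le_mul_of_nonneg_left h7 hδ0, mul_nonneg hE0.le hq0]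
    · nlinarith [mul_nonneg hδ0 (h3.trans h2), mul_nonneg hE0.le (sub_nonneg.2 h4)]
  have h2 := Ex_mono (m := i) h1
  rw [Ex_mul, Ex_sub, Ex_const, ← hs, Ex_mul, Ex_self_mapsum, ← hδ] at h2
  have h3 := lower_avg i m (by omega) g hg
  rw [← hδ] at h3
  have h4 : 0 < δ := by
    rcases hδ0.eq_or_lt with h5 | h5
    · rw [← h5] at h3; norm_num at h3
    · exact h5
  refine le_of_mul_le_mul_left ?_ h4
  nlinarith

end Pool.Agent.P.MP_7badbe_co
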