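import Pool.Agent.P.MP_7badbe_co.Lim.D

/-! A finite pool of points, and two bounds for cover-free families. -/

set_option autoImplicit false

open Finset
open scoped BigOperators

namespace Pool.Agent.P.MP_7badbe_co

open Classical in
lemma expect_count' {X A ι : Type} [Fintype X] [DecidableEq X] [Fintype A] [Nonempty A] {k : ℕ}
    (γ : Multiset A → Prop) (s : Finset ι) (f : ι → Finset X) (hf : ∀ a ∈ s, (f a).card = k) :
    𝔼 χ : X → A, ((s.filter (fun a => γ ((f a).val.map χ))).card : ℝ)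
      = s.card * Ex k (fun M => ind (γ M)) := by
  simp only [card_filter_ind]
  rw [expect_sum_comm, sum_congr rfl (fun a ha => by
    rw [expect_map (f a) (fun M => ind (γ M)), hf a ha]), sum_const, nsmul_eq_mul]

/-- the rows over a pool of `m + g + c` points -/
theorem pool {V : Type} [Fintype V] [Nonempty V] {i j m g c : ℕ} (him : i + j = m + 1)
    (hg : g ≤ i) {γ : Multiset V → Prop} (hγ : Hit i m γ) {N : ℝ} (hN : 0 < N)
    (h : Ex (m + 1) (fun M => ind (γ M)) * (((m + g + c).choose (j + g) : ℝ) / N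
      + ((i : ℝ) + (m + g + c : ℕ)) * ((m + g + c : ℕ) : ℝ) ^ (g + c)) < 1) :
    ∃ (X : Type) (_ : DecidableEq X) (W : Finset X) (R : Finset (Finset X)),
      W.card = m + g + c ∧ (R.card : ℝ) < N ∧ (∀ B ∈ R, B ⊆ W ∧ B.card = j + g) ∧
      ∀ Y Z : Finset X, Y ⊆ W → Z ⊆ W → Disjoint Y Z → Y.card = g → Z.card = c →
        ∃ B ∈ R, Y ⊆ B ∧ Disjoint B Z := by
  classical
  set n := m + g + c with hn
  set δ := Ex (m + 1) (fun M => ind (γ M)) with hδ
  have hδ0 : 0 ≤ δ := Ex_nonneg (fun _ _ => ind_nonneg _)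
  obtain ⟨S₀, -, hS₀⟩ := exists_subset_card_eq (s := (univ : Finset (Fin (i - g + n))))
    (n := i - g) (by simp)
  set W : Finset (Fin (i - g + n)) := univ \ S₀ with hW
  have hWc : W.card = n := by rw [hW, card_sdiff_of_subset (subset_univ _), hS₀]; simp
  have hd : ∀ B ⊆ W, Disjoint S₀ B := fun B hB => disjoint_sdiff.mono_right hB
  set P := (univ ×ˢ powersetCard m W).filter (fun p => p.1 ∉ p.2) with hP
  have e1 := expect_count' (k := m + 1) γ (powersetCard (j + g) W) (fun B => S₀ ∪ B)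
    (fun B hB => by
      obtain ⟨h1, h2⟩ := mem_powersetCard.1 hB
      rw [card_union_of_disjoint (hd B h1), hS₀, h2]; omega)
  have e2 := expect_count' (k := m + 1) γ P (fun p => insert p.1 p.2) (fun p hp => by
    obtain ⟨h1, h2⟩ := mem_filter.1 hp
    rw [card_insert_of_notMem h2, (mem_powersetCard.1 (mem_product.1 h1).2).2])
  rw [card_powersetCard, hWc, ← hδ] at e1
  rw [← hδ] at e2
  have e3 : (P.card : ℝ) ≤ ((i : ℝ) + n) * (n : ℝ) ^ (g + c) := by
    have h1 : P.card ≤ (i + n) * n ^ (g + c) := by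
      refine (card_filter_le _ _).trans ?_
      rw [card_product, card_powersetCard, hWc, card_univ, Fintype.card_fin]
      refine Nat.mul_le_mul (by omega) ?_
      rw [← Nat.choose_symm (by omega : m ≤ n), show n - m = g + c by omega]
      exact Nat.choose_le_pow _ _
    exact_mod_cast h1
  obtain ⟨χ, -, hχ⟩ := exists_lt_of_expect_lt (s := (univ : Finset (Fin (i - g + n) → V)))
    (f := fun χ => (((powersetCard (j + g) W).filter
        (fun B => γ ((S₀ ∪ B).val.map χ))).card : ℝ) * N⁻¹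
      + ((P.filter (fun p => γ ((insert p.1 p.2).val.map χ))).card : ℝ)) (a := 1)
    univ_nonempty (by
      rw [expect_add_distrib, ← expect_mul, e1, e2]
      refine lt_of_le_of_lt ?_ h
      rw [div_eq_mul_inv]
      nlinarith [mul_le_mul_of_nonneg_right e3 hδ0])
  have h0 : (0 : ℝ) ≤ (((powersetCard (j + g) W).filter
      (fun B => γ ((S₀ ∪ B).val.map χ))).card : ℝ) * N⁻¹ := by positivity
  have h1 : P.filter (fun p => γ ((insert p.1 p.2).val.map χ)) = ∅ := by
    rw [← card_eq_zero, ← Nat.lt_one_iff]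
    exact_mod_cast (show ((P.filter (fun p => γ ((insert p.1 p.2).val.map χ))).card : ℝ) < 1 by
      linarith)
  refine ⟨_, inferInstance, W, (powersetCard (j + g) W).filter
    (fun B => γ ((S₀ ∪ B).val.map χ)), hWc, ?_,
    fun B hB => mem_powersetCard.1 (mem_filter.1 hB).1, fun Y Z hY hZ hYZ hYc hZc => ?_⟩
  · rw [h1, card_empty, Nat.cast_zero, add_zero, ← div_eq_mul_inv, div_lt_one hN] at hχ
    exact hχ
  have hT : (W \ (Y ∪ Z)).card = m := by
    rw [card_sdiff_of_subset (union_subset hY hZ), card_union_of_disjoint hYZ]; omega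
  obtain ⟨e, he, hec, hor, hge⟩ := hitF_of_hit hγ χ (S₀ ∪ Y) (W \ (Y ∪ Z))
    (disjoint_union_left.2 ⟨hd _ sdiff_subset, disjoint_sdiff.mono_left subset_union_left⟩)
    (by rw [card_union_of_disjoint (hd Y hY), hS₀, hYc]; omega) hT
  rcases hor with h2 | h2
  · have h3 : S₀ ⊆ e := subset_union_left.trans h2
    refine ⟨e \ S₀, mem_filter.2 ⟨mem_powersetCard.2 ⟨fun x hx => ?_, ?_⟩, ?_⟩, fun x hx => ?_, ?_⟩
    · exact mem_sdiff.2 ⟨mem_univ _, (mem_sdiff.1 hx).2⟩
    · rw [card_sdiff_of_subset h3, hec, hS₀]; omega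
    · rwa [union_sdiff_of_subset h3]
    · exact mem_sdiff.2 ⟨h2 (mem_union_right _ hx), (mem_sdiff.1 (hY hx)).2⟩
    · refine disjoint_left.2 (fun x hx hxZ => ?_)
      obtain ⟨h4, h5⟩ := mem_sdiff.1 hx
      rcases mem_union.1 (he h4) with h6 | h6
      · rcases mem_union.1 h6 with h7 | h7
        · exact h5 h7
        · exact disjoint_left.1 hYZ h7 hxZ
      · exact (mem_sdiff.1 h6).2 (mem_union_right _ hxZ)
  · obtain ⟨s, hs, rfl⟩ := exists_eq_insert_iff.2 ⟨h2, by rw [hT, hec]⟩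
    refine absurd (mem_filter.2 ⟨mem_filter.2 ⟨mem_product.2 ⟨mem_univ s,
      mem_powersetCard.2 ⟨sdiff_subset, hT⟩⟩, hs⟩, hge⟩ :
        (s, W \ (Y ∪ Z)) ∈ P.filter (fun p => γ ((insert p.1 p.2).val.map χ))) ?_
    rw [h1]
    exact notMem_empty _

variable {X : Type} [DecidableEq X]

/-- few rows can all be avoided -/
lemma rows_greedy {W : Finset X} {R : Finset (Finset X)} {a g : ℕ} (hg : g ≤ a) (ha : a < W.card)
    (h1 : ∀ B ∈ R, B ⊆ W ∧ B.card = a)
    (h2 : ∀ Y ⊆ W, Y.card = g → ∃ B ∈ R, Y ⊆ B) : g < R.card := by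
  by_contra hc
  obtain ⟨S, h3, h4, h5⟩ := exists_transversal (R := W.card - a) (by omega)
    (R.image (fun B => W \ B)) (fun z hz => by
      obtain ⟨B, hB, rfl⟩ := mem_image.1 hz
      rw [card_sdiff_of_subset (h1 B hB).1, (h1 B hB).2])
  have h6 : S ⊆ W := h3.trans (biUnion_subset.2 (fun z hz => by
    obtain ⟨B, hB, rfl⟩ := mem_image.1 hz
    exact sdiff_subset))
  obtain ⟨Y, h7, h8, h9⟩ := exists_subsuperset_card_eq (n := g) h6
    (h4.trans (card_image_le.trans (by omega))) (by omega)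
  obtain ⟨B, hB, hY⟩ := h2 Y h8 h9
  obtain ⟨x, hx, hx'⟩ := h5 _ (mem_image_of_mem _ hB)
  exact (mem_sdiff.1 hx').2 (hY (h7 hx))

lemma cover_cols {W : Finset X} {C : Finset (Finset X)} {y : X} {τ : ℕ}
    (h : ∀ P ⊆ C, P.card ≤ τ → ∃ z ∈ W, z ≠ y ∧ ∀ B ∈ P, z ∈ B) (c : ℕ) :
    ∀ A ⊆ C, A.card ≤ c * τ → ∃ Z ⊆ W.erase y, Z.card ≤ c ∧ ∀ B ∈ A, ∃ z ∈ Z, z ∈ B := by
  induction c with
  | zero =>
    intro A _ hA
    rw [card_eq_zero.1 (by omega : A.card = 0)]
    exact ⟨∅, by simp⟩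
  | succ c ih =>
    intro A hA hc
    obtain ⟨P, hP, hPc⟩ := exists_subset_card_eq (s := A) (n := min τ A.card) (min_le_right _ _)
    obtain ⟨z, hz, hzy, hzP⟩ := h P (hP.trans hA) (hPc ▸ min_le_left _ _)
    obtain ⟨Z, h1, h2, h3⟩ := ih (A \ P) (sdiff_subset.trans hA) (by
      rw [card_sdiff_of_subset hP, hPc]
      rw [Nat.succ_mul] at hc
      omega)
    refine ⟨insert z Z, insert_subset (mem_erase.2 ⟨hzy, hz⟩) h1,
      (card_insert_le _ _).trans (by omega), fun B hB => ?_⟩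
    by_cases hBP : B ∈ P
    · exact ⟨z, mem_insert_self _ _, hzP B hBP⟩
    · obtain ⟨z', h4, h5⟩ := h3 B (mem_sdiff.2 ⟨hB, hBP⟩)
      exact ⟨z', mem_insert_of_mem h4, h5⟩

lemma card_small_subsets {ι : Type} (R : Finset ι) (τ : ℕ) {x : ℝ} (hx0 : 0 ≤ x) (hx1 : x ≤ 1) :
    ((R.powerset.filter (fun P => P.card ≤ τ)).card : ℝ) * x ^ τ ≤ Real.exp (x * R.card) := by
  classical
  calc _ = ∑ _P ∈ R.powerset.filter (fun P => P.card ≤ τ), x ^ τ := by
        rw [sum_const, nsmul_eq_mul]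
    _ ≤ ∑ P ∈ R.powerset.filter (fun P => P.card ≤ τ), x ^ P.card :=
        sum_le_sum (fun P hP => pow_le_pow_of_le_one hx0 hx1 (mem_filter.1 hP).2)
    _ ≤ ∑ P ∈ R.powerset, x ^ P.card :=
        sum_le_sum_of_subset_of_nonneg (filter_subset _ _) (fun _ _ _ => by positivity)
    _ = (1 + x) ^ R.card := by
        rw [← prod_const, prod_one_add]
        exact sum_congr rfl (fun P _ => by rw [prod_const])
    _ ≤ Real.exp x ^ R.card :=
        pow_le_pow_left₀ (by positivity) (by linarith [Real.add_one_le_exp x]) _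
    _ = _ := by rw [← Real.exp_nat_mul, mul_comm]

/-- private subsets in a cover-free family -/
lemma rows_private {W : Finset X} {R : Finset (Finset X)} {a c : ℕ} {x : ℝ} (hc : c < W.card)
    (hx0 : 0 < x) (hx1 : x ≤ 1) (hx : 2 * (a : ℝ) = x * (W.card * c)) (ha : 0 < a)
    (h1 : ∀ B ∈ R, B ⊆ W ∧ B.card = a)
    (h2 : ∀ y ∈ W, ∀ Z ⊆ W.erase y, Z.card = c → ∃ B ∈ R, y ∈ B ∧ Disjoint B Z) :
    Real.log (W.card / 2) ≤ x * R.card + (x * R.card + 1) * Real.log x⁻¹ := by
  classical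
  set τ := ⌈x * R.card⌉₊ with hτ
  set W' := W.filter (fun y => (R.filter (fun B => y ∈ B)).card ≤ c * τ) with hW'
  have hn : (0 : ℝ) < W.card := by exact_mod_cast (by omega : 0 < W.card)
  have hN : (0 : ℝ) < R.card := by
    obtain ⟨y, hy⟩ := card_pos.1 (by omega : 0 < W.card)
    obtain ⟨Z, h3, h4⟩ := exists_subset_card_eq (s := W.erase y) (n := c)
      (by rw [card_erase_of_mem hy]; omega)
    obtain ⟨B, hB, -⟩ := h2 y hy Z h3 h4
    exact_mod_cast card_pos.2 ⟨B, hB⟩
  have e1 : ∑ y ∈ W, (R.filter (fun B => y ∈ B)).card = R.card * a := by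
    simp only [card_filter]
    rw [sum_comm, sum_congr rfl (fun B hB => ?_), sum_const, smul_eq_mul]
    rw [← card_filter, filter_mem_eq_inter, inter_eq_right.2 (h1 B hB).1, (h1 B hB).2]
  have e2 : (W \ W').card * (c * τ) ≤ R.card * a := by
    rw [← e1, ← smul_eq_mul, ← sum_const]
    refine (sum_le_sum (fun y hy => ?_)).trans (sum_le_sum_of_subset sdiff_subset)
    obtain ⟨h3, h4⟩ := mem_sdiff.1 hy
    by_contra h5
    exact h4 (mem_filter.2 ⟨h3, by omega⟩)
  have e3 : (W.card : ℝ) / 2 ≤ W'.card := by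
    rw [card_sdiff_of_subset (filter_subset _ _)] at e2
    have h3 : ((W.card : ℝ) - W'.card) * (c * τ) ≤ R.card * a := by
      rw [← Nat.cast_sub (card_filter_le _ _)]
      exact_mod_cast e2
    have h4 : x * R.card ≤ τ := Nat.le_ceil _
    have h5 : (0 : ℝ) ≤ (W.card : ℝ) - W'.card :=
      sub_nonneg.2 (by exact_mod_cast card_filter_le _ _)
    have h6 : ((W.card : ℝ) - W'.card) * (c * (x * R.card)) ≤ R.card * a :=
      (mul_le_mul_of_nonneg_left (mul_le_mul_of_nonneg_left h4 (Nat.cast_nonneg c)) h5).trans h3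
    have ha' : (0 : ℝ) < a := by exact_mod_cast ha
    have h7 : ((W.card : ℝ) - W'.card) * 2 * (R.card * a) ≤ W.card * (R.card * a) := by
      have := mul_le_mul_of_nonneg_left h6 hn.le
      calc _ = ((W.card : ℝ) - W'.card) * R.card * (2 * a) := by ring
        _ = W.card * (((W.card : ℝ) - W'.card) * (c * (x * R.card))) := by rw [hx]; ring
        _ ≤ _ := this
    have := le_of_mul_le_mul_right h7 (by positivity)
    linarith
  have e4 : ∀ y ∈ W', ∃ P ⊆ R.filter (fun B => y ∈ B), P.card ≤ τ ∧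
      ∀ z ∈ W, z ≠ y → ¬ ∀ B ∈ P, z ∈ B := by
    intro y hy
    obtain ⟨h3, h4⟩ := mem_filter.1 hy
    by_contra h5
    push Not at h5
    obtain ⟨Z, h6, h7, h8⟩ := cover_cols h5 c _ Subset.rfl h4
    obtain ⟨Z', h9, h10, h11⟩ := exists_subsuperset_card_eq (n := c) h6 h7
      (by rw [card_erase_of_mem h3]; omega)
    obtain ⟨B, hB, hyB, hd⟩ := h2 y h3 Z' h10 h11
    obtain ⟨z, hz, hzB⟩ := h8 B (mem_filter.2 ⟨hB, hyB⟩)
    exact disjoint_left.1 hd hzB (h9 hz)
  choose! P hP using e4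
  have e5 : W'.card ≤ (R.powerset.filter (fun P => P.card ≤ τ)).card := by
    refine card_le_card_of_injOn P (fun y hy => ?_) (fun y hy z hz hyz => ?_)
    · exact mem_coe.2 (mem_filter.2 ⟨mem_powerset.2 ((hP y hy).1.trans (filter_subset _ _)),
        (hP y hy).2.1⟩)
    · by_contra h3
      refine (hP y hy).2.2 z (mem_filter.1 hz).1 (Ne.symm h3) (fun B hB => ?_)
      rw [hyz] at hB
      exact (mem_filter.1 ((hP z hz).1 hB)).2
  have e6 : (W.card : ℝ) / 2 * x ^ τ ≤ Real.exp (x * R.card) := by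
    refine le_trans (mul_le_mul_of_nonneg_right (e3.trans ?_) (by positivity))
      (card_small_subsets R τ hx0.le hx1)
    exact_mod_cast e5
  have e7 := Real.log_le_log (by positivity) e6
  rw [Real.log_mul (by positivity) (by positivity), Real.log_pow, Real.log_exp] at e7
  have e8 : (τ : ℝ) < x * R.card + 1 := Nat.ceil_lt_add_one (by positivity)
  have e9 : Real.log x ≤ 0 := Real.log_nonpos hx0.le hx1
  rw [Real.log_inv]
  nlinarith

end Pool.Agent.P.MP_7badbe_co
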