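import Pool.Agent.P.MP_7badbe_co.Transfer
import Pool.Agent.P.MP_7badbe_co.Un.LA
import Pool.Agent.P.MP_7badbe_co.Un.LB
import Pool.Agent.P.MP_7badbe_co.Un.LC

/-! The uniform lower bound on `1 - π(F_i)`. -/

set_option autoImplicit false

open Finset Filter Topology

namespace Pool.Agent.P.MP_7badbe_co

variable {V : Type} [Fintype V] [Nonempty V]

lemma low_zero {i j m : ℕ} (hi : 2 ≤ i) (hj : 1 ≤ j) (him : i + j = m + 1)
    {γ : Multiset V → Prop} (hγ : Hit i m γ) :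
    1 ≤ 2 * (Ex (m + 1) (fun M => ind (γ M)) * m.choose j) := by
  have h1 := lower_avg i m (by omega) γ hγ
  rw [show m + 1 - i = j by omega] at h1
  have h2 : (i : ℝ) ≤ m.choose j := by
    exact_mod_cast (show i ≤ m by omega).trans (le_choose_mid hj (by omega))
  have h3 : 0 ≤ Ex (m + 1) (fun M => ind (γ M)) := Ex_nonneg (fun _ _ => ind_nonneg _)
  nlinarith [mul_le_mul_of_nonneg_right h2 h3]

lemma low_A {i j m : ℕ} (hk : 10 ^ 8 ≤ m + 1) (hj : 1 ≤ j) (hji : j ≤ i) (him : i + j = m + 1)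
    (h3 : j ^ 3 ≤ (m + 1) ^ 2) {γ : Multiset V → Prop} (hγ : Hit i m γ) :
    min (j * Real.log (m + 1 : ℕ)) (((m + 1 : ℕ) : ℝ) / j * Real.log (m + 1 : ℕ)
        / Real.log (2 * (((m + 1 : ℕ) : ℝ) / j)))
      ≤ 20000 * (Ex (m + 1) (fun M => ind (γ M)) * m.choose j) := by
  have h0 : 0 ≤ Ex (m + 1) (fun M => ind (γ M)) := Ex_nonneg (fun _ _ => ind_nonneg _)
  have h4 := third_le hk (by omega) h3
  have h5 := fun δ => chain_num (δ := δ) (i := i) (j := j) hk
  clear hk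
  obtain ⟨ρ, rfl⟩ : ∃ ρ, j = ρ + 1 := ⟨j - 1, by omega⟩
  rcases Nat.eq_zero_or_pos ρ with rfl | hρ
  · obtain rfl : i = m := by omega
    refine (min_le_left _ _).trans ?_
    have h6 := lower_one i (by omega) γ hγ
    have h7 : (1 : ℝ) ≤ i := by exact_mod_cast hji
    rw [div_le_iff₀ (by positivity)] at h6
    simp only [zero_add, Nat.choose_one_right]
    push_cast
    nlinarith [mul_le_mul_of_nonneg_left h7 h0]
  by_cases h6 : 4 * (Ex (m + 1) (fun M => ind (γ M)) * m.choose ρ) ≤ 1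
  · have h7 := h5 _ (by omega) him (by omega) h3 (lower_chain him γ hγ h6)
    refine (min_le_left _ _).trans ?_
    have := mul_nonneg h0 (Nat.cast_nonneg (m.choose (ρ + 1)) : (0 : ℝ) ≤ _)
    linarith
  · refine (min_le_right _ _).trans (h4.trans ?_)
    push Not at h6
    have h7 : (m.choose (ρ + 1) : ℝ) * (ρ + 1 : ℕ) = m.choose ρ * i := by
      have := Nat.choose_succ_right_eq m ρ
      rw [show m - ρ = i by omega] at this
      exact_mod_cast this
    have h8 : ((m + 1 : ℕ) : ℝ) ≤ 2 * i := by exact_mod_cast (by omega : m + 1 ≤ 2 * i)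
    have h9 : (0 : ℝ) < (ρ + 1 : ℕ) := by positivity
    rw [← mul_div_assoc, div_le_iff₀ h9, mul_assoc, mul_assoc, h7, ← mul_assoc _ _ (i : ℝ)]
    nlinarith [mul_le_mul_of_nonneg_right h6.le (Nat.cast_nonneg i : (0 : ℝ) ≤ i),
      (Nat.cast_nonneg i : (0 : ℝ) ≤ i)]

lemma low_B {i j m : ℕ} (hk : 10 ^ 8 ≤ m + 1) (hi : 13 ≤ i) (hij : i ≤ j) (him : i + j = m + 1)
    (h3 : i ^ 3 ≤ (m + 1) ^ 2) {γ : Multiset V → Prop} (hγ : Hit i m γ) :
    min (i : ℝ) (((m + 1 : ℕ) : ℝ) / i * Real.log (m + 1 : ℕ)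
        / Real.log (2 * (((m + 1 : ℕ) : ℝ) / i)))
      ≤ 384 * (Ex (m + 1) (fun M => ind (γ M)) * m.choose j) := by
  set δ := Ex (m + 1) (fun M => ind (γ M)) with hδ
  have h0 : 0 ≤ δ := Ex_nonneg (fun _ _ => ind_nonneg _)
  have h4 := third_le hk (by omega) h3
  obtain ⟨g, hg⟩ : ∃ g, g = min ((i - 1) / 12) ((m + 1) / i) := ⟨_, rfl⟩
  have hq : 2 ≤ (m + 1) / i := (Nat.le_div_iff_mul_le (by omega)).2 (by omega)
  have hg1 : 1 ≤ g := by omega
  have hg2 : 12 * g ≤ i - 1 := by omega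
  have hg3 : g * i ≤ m + 1 :=
    (Nat.mul_le_mul_right i (by omega)).trans (Nat.div_mul_le_self (m + 1) i)
  have h5 := tedge_small hk hg1 hg2 (by omega) h3
  clear hk
  have hs : m.choose (i - 1) = m.choose j := Nat.choose_symm_of_eq_add (by omega)
  have hB : (0 : ℝ) < m.choose j := by exact_mod_cast Nat.choose_pos (by omega)
  have hg0 : (0 : ℝ) < g := by exact_mod_cast hg1
  rw [hs] at h5
  have h6 := tedge_of_log (i := i) (n := m + g + 0) (t := g + 0) (by omega) (by omega) (by omega)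
    hB h5
  have h7 : ((m + g + 0).choose (j + g) : ℝ) ≤ 8 * m.choose j := by
    rw [add_zero, show (m + g).choose (j + g) = (m + g).choose (i - 1) from
      Nat.choose_symm_of_eq_add (by omega), ← hs]
    exact choose_ratio8 (by omega) ((Nat.mul_le_mul_left g (by omega)).trans hg3)
  have h8 : (g : ℝ) ≤ 16 * (δ * m.choose j) := by
    by_contra hc
    push Not at hc
    have hgk : (g : ℝ) ≤ (m + 1 : ℕ) := by exact_mod_cast (by omega : g ≤ m + 1)
    obtain ⟨X, _, W, R, e1, e2, e3, e4⟩ := pool (g := g) (c := 0) him (by omega) hγ hg0 (by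
      rw [← hδ, mul_add]
      have a1 : δ * (((m + g + 0).choose (j + g) : ℝ) / g) < 1 / 2 := by
        rw [← mul_div_assoc, div_lt_iff₀ hg0]
        nlinarith [mul_le_mul_of_nonneg_left h7 h0]
      have a2 : δ * (((i : ℝ) + (m + g + 0 : ℕ)) * ((m + g + 0 : ℕ) : ℝ) ^ (g + 0)) ≤ 1 / 2 := by
        refine le_of_mul_le_mul_left ?_ (show (0 : ℝ) < (m + 1 : ℕ) by positivity)
        nlinarith [mul_le_mul_of_nonneg_left h6 h0]
      linarith)
    have e5 := rows_greedy (g := g) (a := j + g) (by omega) (by omega) e3 (fun Y hY hYg => by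
      obtain ⟨B, h1, h2, -⟩ := e4 Y ∅ hY (empty_subset _) (disjoint_empty_right _) hYg rfl
      exact ⟨B, h1, h2⟩)
    have : R.card < g := by exact_mod_cast e2
    omega
  rcases le_total ((i - 1) / 12) ((m + 1) / i) with h9 | h9
  · refine (min_le_left _ _).trans ?_
    have : (i : ℝ) ≤ 24 * g := by exact_mod_cast (by omega : i ≤ 24 * g)
    linarith
  · refine (min_le_right _ _).trans (h4.trans ?_)
    have h10 : m + 1 < i * (g + 1) := by
      rw [show g = (m + 1) / i by omega]; exact Nat.lt_mul_div_succ _ (by omega)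
    have h11 : ((m + 1 : ℕ) : ℝ) / i ≤ g + 1 := by
      rw [div_le_iff₀' (by exact_mod_cast (by omega : 0 < i))]
      exact_mod_cast h10.le
    have : (1 : ℝ) ≤ g := by exact_mod_cast hg1
    linarith

lemma mid_core {i m u b c : ℕ} {δ : ℝ} (hk : 10 ^ 8 ≤ m + 1) (hu : (m + 1) ^ 2 < u ^ 3)
    (h2 : 2 * u ≤ m + 1) (hc : c = (m + 1) / u) (hb : u ≤ b + 1) (hbu : b ≤ u) (hi : i ≤ m + 1)
    (h0 : 0 ≤ δ) (hμ : δ * m.choose b ≤ (m + 1 : ℕ))
    (hp : ∀ N : ℝ, 0 < N → δ * (((m + c + 1).choose (b + 1) : ℝ) / N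
        + ((i : ℝ) + (m + c + 1 : ℕ)) * ((m + c + 1 : ℕ) : ℝ) ^ (c + 1)) < 1 →
      ∃ (X : Type) (_ : DecidableEq X) (W : Finset X) (R : Finset (Finset X)),
        W.card = m + c + 1 ∧ (R.card : ℝ) < N ∧ (∀ B ∈ R, B ⊆ W ∧ B.card = b + 1) ∧
        ∀ y ∈ W, ∀ Z ⊆ W.erase y, Z.card = c → ∃ B ∈ R, y ∈ B ∧ Disjoint B Z) :
    ((m + 1 : ℕ) : ℝ) / u * Real.log (m + 1 : ℕ) / Real.log (2 * (((m + 1 : ℕ) : ℝ) / u))
      ≤ 800 * (δ * m.choose b) := by
  have hu0 : 0 < u := by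
    rcases Nat.eq_zero_or_pos u with rfl | h3
    · simp at hu
    · exact h3
  have hc1 : c * u ≤ m + 1 := hc ▸ Nat.div_mul_le_self _ u
  have hc3 : 2 ≤ c := hc ▸ (Nat.le_div_iff_mul_le hu0).2 h2
  have hc4 : c ≤ m + 1 := hc ▸ Nat.div_le_self _ u
  have h5 := tedge_mid (b := b) hk hu hb (by omega) hc1
  have h4 := fun N μ x => cff_num (N := N) (μ := μ) (x := x) (a := b + 1) hk hu h2 hc hb
  have hl := log_big hk
  clear hk
  set T := ((m + 1 : ℕ) : ℝ) / u * Real.log (m + 1 : ℕ) / Real.log (2 * (((m + 1 : ℕ) : ℝ) / u))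
  have hB : (0 : ℝ) < m.choose b := by exact_mod_cast Nat.choose_pos (by omega)
  have h6 := tedge_of_log (i := i) (n := m + c + 1) (t := c + 1) (by omega) hi (by omega) hB h5
  have h7 : ((m + c).choose b : ℝ) ≤ 8 * m.choose b :=
    choose_ratio8 (by omega) ((Nat.mul_le_mul_left c hbu).trans hc1)
  have h8 : ((m + c + 1 : ℕ) : ℝ) * (m + c).choose b = (m + c + 1).choose (b + 1) * (b + 1 : ℕ) := by
    exact_mod_cast Nat.add_one_mul_choose_eq (m + c) b
  by_contra hT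
  push Not at hT
  have hT0 : 0 < T := lt_of_le_of_lt (by positivity) hT
  have hn : (0 : ℝ) < (m + c + 1 : ℕ) := by positivity
  have ha : (0 : ℝ) < (b + 1 : ℕ) := by positivity
  have hc0 : (0 : ℝ) < c := by exact_mod_cast (by omega : 0 < c)
  obtain ⟨X, _, W, R, e1, e2, e3, e4⟩ := hp (16 * (T / 800) * (m + c + 1 : ℕ) / (b + 1 : ℕ))
    (by positivity) (by
      rw [mul_add]
      have a1 : δ * (((m + c + 1).choose (b + 1) : ℝ)
          / (16 * (T / 800) * (m + c + 1 : ℕ) / (b + 1 : ℕ))) < 1 / 2 := by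
        rw [div_div_eq_mul_div, ← h8, ← mul_div_assoc, div_lt_iff₀ (by positivity)]
        nlinarith [mul_le_mul_of_nonneg_left (mul_le_mul_of_nonneg_left h7 h0) hn.le,
          mul_lt_mul_of_pos_left hT hn]
      have a2 : δ * (((i : ℝ) + (m + c + 1 : ℕ)) * ((m + c + 1 : ℕ) : ℝ) ^ (c + 1)) ≤ 1 / 2 := by
        refine le_of_mul_le_mul_left ?_ (show (0 : ℝ) < (m + 1 : ℕ) by positivity)
        nlinarith [mul_le_mul_of_nonneg_left h6 h0]
      linarith)
  have hx : 2 * ((b + 1 : ℕ) : ℝ) = 2 * ((b + 1 : ℕ) : ℝ) / ((m + c + 1 : ℕ) * c)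
      * ((m + c + 1 : ℕ) * c) := by field_simp
  have hx1 : 2 * ((b + 1 : ℕ) : ℝ) / ((m + c + 1 : ℕ) * c) ≤ 1 := by
    rw [div_le_one (by positivity)]
    exact_mod_cast (show 2 * (b + 1) ≤ (m + c + 1) * 2 by omega).trans
      (Nat.mul_le_mul_left _ hc3)
  have e5 := rows_private (c := c) (a := b + 1) (by omega) (by positivity) hx1
    (by rw [e1]; exact hx) (by omega) e3 e4
  rw [e1] at e5
  have e6 := h4 R.card (T / 800) (2 * ((b + 1 : ℕ) : ℝ) / ((m + c + 1 : ℕ) * c))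
    (Nat.cast_nonneg _)
  rw [show m + 1 + c = m + c + 1 by ring] at e6
  have e7 := e6 e2.le hx hx1 e5
  linarith

lemma low_C1 {i j m : ℕ} (hk : 10 ^ 8 ≤ m + 1) (hji : j ≤ i) (him : i + j = m + 1)
    (h3 : (m + 1) ^ 2 < j ^ 3) {γ : Multiset V → Prop} (hγ : Hit i m γ)
    (hμ : Ex (m + 1) (fun M => ind (γ M)) * m.choose j ≤ (m + 1 : ℕ)) :
    ((m + 1 : ℕ) : ℝ) / j * Real.log (m + 1 : ℕ) / Real.log (2 * (((m + 1 : ℕ) : ℝ) / j))
      ≤ 800 * (Ex (m + 1) (fun M => ind (γ M)) * m.choose j) := by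
  refine mid_core (i := i) hk h3 (by omega) rfl (by omega) le_rfl (by omega)
    (Ex_nonneg (fun _ _ => ind_nonneg _)) hμ (fun N hN h => ?_)
  clear hk
  generalize (m + 1) / j = c at h ⊢
  rw [show m + c + 1 = m + 1 + c by ring, add_comm c 1] at h
  obtain ⟨X, _, W, R, e1, e2, e3, e4⟩ := pool (g := 1) (c := c) him (by omega) hγ hN h
  refine ⟨X, inferInstance, W, R, by omega, e2, e3, fun y hy Z hZ hc => ?_⟩
  obtain ⟨B, h1, h2, h4⟩ := e4 {y} Z (singleton_subset_iff.2 hy) (hZ.trans (erase_subset _ _))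
    (disjoint_singleton_left.2 (fun h => by simpa using hZ h)) (card_singleton y) hc
  exact ⟨B, h1, singleton_subset_iff.1 h2, h4⟩

lemma low_C2 {i j m : ℕ} (hk : 10 ^ 8 ≤ m + 1) (hij : i ≤ j) (him : i + j = m + 1)
    (h3 : (m + 1) ^ 2 < i ^ 3) {γ : Multiset V → Prop} (hγ : Hit i m γ)
    (hμ : Ex (m + 1) (fun M => ind (γ M)) * m.choose j ≤ (m + 1 : ℕ)) :
    ((m + 1 : ℕ) : ℝ) / i * Real.log (m + 1 : ℕ) / Real.log (2 * (((m + 1 : ℕ) : ℝ) / i))
      ≤ 800 * (Ex (m + 1) (fun M => ind (γ M)) * m.choose j) := by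
  obtain ⟨b, rfl⟩ : ∃ b, i = b + 1 := by
    rcases i with _ | b
    · simp at h3
    · exact ⟨b, rfl⟩
  have hs : m.choose j = m.choose b := Nat.choose_symm_of_eq_add (by omega)
  rw [hs] at hμ ⊢
  refine mid_core (i := b + 1) hk h3 (by omega) rfl le_rfl (by omega) (by omega)
    (Ex_nonneg (fun _ _ => ind_nonneg _)) hμ (fun N hN h => ?_)
  clear hk
  have hc1 : (m + 1) / (b + 1) * (b + 1) ≤ m + 1 := Nat.div_mul_le_self _ _
  generalize (m + 1) / (b + 1) = c at h hc1 ⊢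
  have hc2 : c ≤ b + 1 := by
    by_contra h4
    have h5 : (b + 1) * (b + 1) ≤ m + 1 := (Nat.mul_le_mul_right _ (by omega)).trans hc1
    have h6 := Nat.pow_le_pow_left h5 2
    have h7 : (b + 1) ^ 3 * 1 ≤ (b + 1) ^ 3 * (b + 1) := Nat.mul_le_mul_left _ (by omega)
    have h8 : ((b + 1) * (b + 1)) ^ 2 = (b + 1) ^ 3 * (b + 1) := by ring
    omega
  rw [show (m + c + 1).choose (b + 1) = (m + c + 1).choose (j + c) from
    Nat.choose_symm_of_eq_add (by omega)] at h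
  obtain ⟨X, _, W, R, e1, e2, e3, e4⟩ := pool (g := c) (c := 1) him hc2 hγ hN h
  refine ⟨X, inferInstance, W, R.image (fun B => W \ B), e1,
    lt_of_le_of_lt (by exact_mod_cast card_image_le) e2, fun z hz => ?_, fun y hy Z hZ hc => ?_⟩
  · obtain ⟨B, hB, rfl⟩ := mem_image.1 hz
    refine ⟨sdiff_subset, ?_⟩
    rw [card_sdiff_of_subset (e3 B hB).1, (e3 B hB).2]
    omega
  · obtain ⟨B, h1, h2, h4⟩ := e4 Z {y} (hZ.trans (erase_subset _ _)) (singleton_subset_iff.2 hy)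
      (disjoint_singleton_right.2 (fun h => by simpa using hZ h)) hc (card_singleton y)
    exact ⟨W \ B, mem_image_of_mem _ h1, mem_sdiff.2 ⟨hy, disjoint_singleton_right.1 h4⟩,
      disjoint_sdiff_self_left.mono_right h2⟩

lemma low_all {i j m : ℕ} (hi : 2 ≤ i) (hj : 1 ≤ j) (him : i + j = m + 1)
    {γ : Multiset V → Prop} (hγ : Hit i m γ) :
    min (i : ℝ) (min (j * Real.log (m + 1 : ℕ))
        (((m + 1 : ℕ) : ℝ) / (min i j : ℕ) * Real.log (m + 1 : ℕ)
          / Real.log (2 * (((m + 1 : ℕ) : ℝ) / (min i j : ℕ)))))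
      ≤ 200000000 * (Ex (m + 1) (fun M => ind (γ M)) * m.choose j) := by
  have h0 := low_zero hi hj him hγ
  by_cases h1 : i ≤ 12 ∨ m + 1 < 10 ^ 8
  · refine (min_le_left _ _).trans ?_
    have : (i : ℝ) ≤ 100000000 := by exact_mod_cast (by omega : i ≤ 100000000)
    linarith
  push Not at h1
  obtain ⟨h1, hk⟩ := h1
  by_cases hμ : Ex (m + 1) (fun M => ind (γ M)) * m.choose j ≤ (m + 1 : ℕ)
  swap
  · clear hk
    refine (min_le_left _ _).trans ?_
    have : (i : ℝ) ≤ (m + 1 : ℕ) := by exact_mod_cast (by omega : i ≤ m + 1)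
    linarith
  rcases le_total j i with h2 | h2
  · rw [min_eq_right h2]
    refine (min_le_right _ _).trans ?_
    rcases le_or_gt (j ^ 3) ((m + 1) ^ 2) with h3 | h3
    · refine (low_A hk hj h2 him h3 hγ).trans ?_
      clear hk
      linarith
    · refine (min_le_right _ _).trans ((low_C1 hk h2 him h3 hγ hμ).trans ?_)
      clear hk
      linarith
  · rw [min_eq_left h2]
    refine (min_le_min_left _ (min_le_right _ _)).trans ?_
    rcases le_or_gt (i ^ 3) ((m + 1) ^ 2) with h3 | h3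
    · refine (low_B hk h1 h2 him h3 hγ).trans ?_
      clear hk
      linarith
    · refine (min_le_right _ _).trans ((low_C2 hk h2 him h3 hγ hμ).trans ?_)
      clear hk
      linarith

theorem lower_unif {k i : ℕ} (hi : 2 ≤ i) (hik : i < k) {p : ℝ}
    (hp : Tendsto (fun n : ℕ => (exF k i n : ℝ) / n.choose k) atTop (𝓝 p)) :
    1 / 200000000 * min (i : ℝ) (min ((k - i : ℕ) * Real.log k)
        ((k : ℝ) / (min i (k - i) : ℕ) * Real.log k
          / Real.log (2 * ((k : ℝ) / (min i (k - i) : ℕ)))))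
      ≤ (1 - p) * (k - 1).choose (i - 1) := by
  obtain ⟨m, rfl⟩ : ∃ m, k = m + 1 := ⟨k - 1, by omega⟩
  rw [Nat.add_sub_cancel, show m.choose (i - 1) = m.choose (m + 1 - i) from
    Nat.choose_symm_of_eq_add (by omega)]
  have hB : (0 : ℝ) < m.choose (m + 1 - i) := by exact_mod_cast Nat.choose_pos (by omega)
  rw [← div_le_iff₀ hB]
  refine lower_transfer (by omega) (by omega) hp (fun n γ hγ => ?_)
  rw [div_le_iff₀ hB]
  have := low_all (j := m + 1 - i) hi (by omega) (by omega) hγ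
  linarith

end Pool.Agent.P.MP_7badbe_co
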