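import Pool.Agent.P.MP_7badbe_co.Un.U1

set_option autoImplicit false

open Finset Filter Topology
open scoped BigOperators

namespace Pool.Agent.P.MP_7badbe_co

lemma choose_ge_U2 {R k y : ℕ} (hy : (k : ℝ) * (1 - 1 / (2 * (R + 1))) ≤ y) :
    (k : ℝ) ^ R / (2 * R.factorial) ≤ (y + R).choose R := by
  have h1 := Nat.pow_le_choose (α := ℝ) R (y + R)
  rw [show y + R + 1 - R = y + 1 by omega] at h1
  refine le_trans ?_ h1
  have h2 : (1 : ℝ) / (2 * (R + 1)) ≤ 1 / 2 :=
    one_div_le_one_div_of_le (by norm_num) (by nlinarith [Nat.cast_nonneg (α := ℝ) R])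
  have h3 : (1 : ℝ) / 2 ≤ (1 - 1 / (2 * (R + 1))) ^ R := by
    have h4 := one_add_mul_le_pow (a := -(1 / (2 * ((R : ℝ) + 1)))) (by linarith) R
    rw [← sub_eq_add_neg] at h4
    refine le_trans ?_ h4
    have h5 : (R : ℝ) * (1 / (2 * (R + 1))) ≤ 1 / 2 := by
      rw [mul_one_div, div_le_div_iff₀ (by positivity) (by norm_num)]
      linarith
    linarith
  have h6 : (k : ℝ) ^ R * (1 / 2) ≤ ((y + 1 : ℕ) : ℝ) ^ R := by
    refine (mul_le_mul_of_nonneg_left h3 (by positivity)).trans ?_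
    rw [← mul_pow]
    refine pow_le_pow_left₀ (mul_nonneg (by positivity) (by linarith)) (hy.trans ?_) _
    exact_mod_cast Nat.le_succ y
  calc _ = (k : ℝ) ^ R * (1 / 2) / R.factorial := by ring
    _ ≤ _ := by gcongr

theorem AS_unif (V : Type) [Fintype V] [DecidableEq V] {R : ℕ} (hR : 1 ≤ R) {L : ℝ}
    (hL : L = Real.log (4 * (4 * (R + 1)) ^ 4)) (k : ℕ) (hk : (4 * (R + 1)) ^ 3 ≤ k) :
    AS V R k (8 * (2 * R + 3) * L * R.factorial / (k : ℝ) ^ R) 0 := by
  induction k using Nat.strong_induction_on with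
  | _ k ih =>
  obtain ⟨D, hD⟩ : ∃ D : ℕ, D = 4 * (R + 1) := ⟨_, rfl⟩
  have hD' : (4 * (R + 1) : ℝ) = D := by rw [hD]; push_cast; rfl
  rw [← hD] at hk ih
  rw [hD'] at hL
  have hR1 : (1 : ℝ) ≤ R := by exact_mod_cast hR
  have hD8 : (8 : ℝ) ≤ D := by linarith
  have hD1 : (1 : ℝ) ≤ (D : ℝ) ^ 4 := one_le_pow₀ (by linarith)
  have hL1 : 1 ≤ L := by
    rw [hL, Real.le_log_iff_exp_le (by positivity)]
    linarith [Real.exp_one_lt_d9]
  have hF : (1 : ℝ) ≤ R.factorial := by exact_mod_cast R.factorial_pos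
  have hD0 : 0 < D := by omega
  set s := k / D with hs
  have hs1 : D * s ≤ k := Nat.mul_div_le _ _
  have hs2 : k < D * (s + 1) := Nat.lt_mul_div_succ _ hD0
  have hs3 : D * D ≤ s := (Nat.le_div_iff_mul_le hD0).2 (by rw [← pow_three']; exact hk)
  have hs4 : R * (R + 4) ≤ s := le_trans (Nat.mul_le_mul (by omega) (by omega)) hs3
  have hk0 : (0 : ℝ) < k := by
    have : 0 < k := lt_of_lt_of_le (by positivity) hk
    exact_mod_cast this
  have triv : ∀ t, R * (R + 4) ≤ t → AS V R t (R + 2) 0 := fun t ht =>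
    (AS_of_RT (RT_one V 0 R)).mono (by nlinarith) (by rw [mul_one]) le_rfl
  obtain ⟨y, hy⟩ : ∃ y, k = y + s + R * (R + 3) := ⟨k - s - R * (R + 3), by
    have : 8 * s ≤ D * s := Nat.mul_le_mul_right _ (by omega)
    have : R * (R + 3) ≤ R * (R + 4) := Nat.mul_le_mul_left _ (by omega)
    omega⟩
  have hy1 : (k : ℝ) * (1 - 1 / (2 * (R + 1))) ≤ y := by
    have h1 : (k : ℝ) ≤ y + 2 * s := by
      have : R * (R + 3) ≤ R * (R + 4) := Nat.mul_le_mul_left _ (by omega)
      exact_mod_cast (show k ≤ y + 2 * s by omega)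
    have h2 : (D : ℝ) * s ≤ k := by exact_mod_cast hs1
    have h3 : 2 * (s : ℝ) ≤ k * (1 / (2 * (R + 1))) := by
      rw [mul_one_div, le_div_iff₀ (by positivity)]
      rw [← hD'] at h2
      linarith
    linarith
  have hN := choose_ge_U2 hy1
  set N := (y + R).choose R with hN'
  rw [div_le_iff₀ (by positivity)] at hN
  rcases le_or_gt (N : ℝ) (2 * L) with h | h
  · refine (triv k (hs4.trans (Nat.div_le_self _ _))).mono le_rfl ?_ le_rfl
    rw [le_div_iff₀ (by positivity)]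
    calc _ ≤ ((R : ℝ) + 2) * (2 * L * (2 * R.factorial)) := by
          refine mul_le_mul_of_nonneg_left (hN.trans ?_) (by positivity)
          gcongr
      _ = (4 * (R + 2)) * (L * R.factorial) := by ring
      _ ≤ (8 * (2 * R + 3)) * (L * R.factorial) :=
          mul_le_mul_of_nonneg_right (by linarith) (by positivity)
      _ = _ := by ring
  have hL0 : 0 < L := by linarith
  set M := ⌊N / L⌋₊ with hM
  have hM1 : (M : ℝ) ≤ N / L := Nat.floor_le (by positivity)
  have hM2 : N / L < M + 1 := Nat.lt_floor_add_one _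
  have hM3 : 1 ≤ M := Nat.le_floor (by rw [le_div_iff₀ hL0]; push_cast; linarith)
  have hM4 : (1 : ℝ) ≤ M := by exact_mod_cast hM3
  have : NeZero M := ⟨by omega⟩
  set B : ℝ := 8 * (2 * R + 3) * L * R.factorial with hB
  have hB0 : (R : ℝ) + 2 ≤ B := by
    have h1 : (1 : ℝ) ≤ L * R.factorial := one_le_mul_of_one_le_of_one_le hL1 hF
    rw [hB, mul_assoc]
    nlinarith
  have hq : AS V R s (B * ((D : ℝ) ^ 4) ^ R / (k : ℝ) ^ R) 0 := by
    rcases le_or_gt (D ^ 3) s with h1 | h1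
    · refine (ih s (Nat.div_lt_self (by exact_mod_cast hk0) (by omega)) h1).mono le_rfl ?_ le_rfl
      have hs0 : (1 : ℝ) ≤ s := by exact_mod_cast le_trans (Nat.mul_pos hD0 hD0) hs3
      rw [mul_div_assoc B, ← div_pow, div_eq_mul_inv B, ← inv_pow]
      refine mul_le_mul_of_nonneg_left (pow_le_pow_left₀ (by positivity) ?_ _) (by linarith)
      rw [inv_eq_one_div, div_le_div_iff₀ (by linarith) hk0, one_mul]
      have h2 : (k : ℝ) ≤ D * (s + 1) := by exact_mod_cast hs2.le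
      have h3 : (2 : ℝ) ≤ (D : ℝ) ^ 3 := le_trans (by norm_num)
        (pow_le_pow_left₀ (by norm_num) hD8 3)
      calc (k : ℝ) ≤ D * (2 * s) := h2.trans (mul_le_mul_of_nonneg_left (by linarith) (by linarith))
        _ ≤ D * ((D : ℝ) ^ 3 * s) := by gcongr
        _ = _ := by ring
    · refine (triv s hs4).mono le_rfl (hB0.trans ?_) le_rfl
      rw [mul_div_assoc B, ← div_pow]
      refine le_mul_of_one_le_right (by linarith) (one_le_pow₀ ?_)
      rw [le_div_iff₀ hk0, one_mul]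
      exact_mod_cast (show k ≤ D ^ 4 from hs2.le.trans (by
        rw [pow_succ' D 3]; exact Nat.mul_le_mul_left _ h1))
  have h2 := (AS_hash V M (y + R * (R + 2)) R (x := 1 / (4 * (D : ℝ) ^ 4)) (by positivity)
    (by rw [div_le_one (by positivity)]; linarith) ?_).repair hq (by positivity)
  · rw [mul_zero] at h2
    refine h2.mono (le_of_eq (by rw [hy]; ring)) ?_ le_rfl
    have h3 : (2 * R + 3 : ℝ) / M ≤ B / 2 / (k : ℝ) ^ R := by
      rw [div_le_div_iff₀ (by linarith) (by positivity)]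
      rw [div_lt_iff₀ hL0] at hM2
      have h4 : (N : ℝ) ≤ 2 * M * L := by nlinarith
      calc _ ≤ (2 * R + 3 : ℝ) * (2 * M * L * (2 * R.factorial)) := by
            refine mul_le_mul_of_nonneg_left (hN.trans ?_) (by positivity)
            gcongr
        _ = _ := by rw [hB]; ring
    have h4 : 2 ^ (2 * R + 3) * (1 / (4 * (D : ℝ) ^ 4)) ^ (R + 2) *
        (B * ((D : ℝ) ^ 4) ^ R / (k : ℝ) ^ R) = B / 2 / (k : ℝ) ^ R / ((D : ℝ) ^ 4) ^ 2 := by
      generalize (D : ℝ) ^ 4 = E at hD1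
      rw [one_div, inv_pow, mul_pow, pow_add, pow_mul, pow_add, pow_add]
      field_simp
      norm_num
      exact Or.inl (mul_comm _ _)
    have h5 : B / 2 / (k : ℝ) ^ R / ((D : ℝ) ^ 4) ^ 2 ≤ B / 2 / (k : ℝ) ^ R :=
      div_le_self (div_nonneg (by linarith) (by positivity)) (one_le_pow₀ hD1)
    rw [h4]
    calc _ ≤ B / 2 / (k : ℝ) ^ R + B / 2 / (k : ℝ) ^ R := add_le_add h3 h5
      _ = _ := by ring
  · rw [show y + R * (R + 2) + R - (R + 2) * R = y + R from Nat.sub_eq_of_eq_add (by ring), ← hN']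
    have h4 : (0 : ℝ) ≤ 1 - 1 / M := by
      rw [sub_nonneg, div_le_one (by linarith)]; exact hM4
    refine (pow_le_pow_left₀ h4 (Real.one_sub_le_exp_neg _) _).trans ?_
    rw [← Real.exp_nat_mul, one_div (4 * _), ← Real.exp_log (show (0 : ℝ) < 4 * (D : ℝ) ^ 4 by
      positivity), ← hL, ← Real.exp_neg, Real.exp_le_exp, mul_neg, neg_le_neg_iff, mul_one_div,
      le_div_iff₀ (by linarith)]
    rw [le_div_iff₀ hL0] at hM1
    linarith

/-- the bound `i log i`, for all `k` -/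
theorem upper_ilog {m i : ℕ} (hi : 2 ≤ i) (him : i ≤ m) {p : ℝ}
    (hp : Tendsto (fun n : ℕ => (exF (m + 1) i n : ℝ) / n.choose (m + 1)) atTop (𝓝 p)) :
    (1 - p) * m.choose (i - 1) ≤ 360 * (i * Real.log i) := by
  have hi2 : (2 : ℝ) ≤ i := by exact_mod_cast hi
  have hl0 : 0 < Real.log i := Real.log_pos (by linarith)
  have hl4 : Real.log 4 ≤ 2 * Real.log i := by
    rw [show (2 : ℝ) = (2 : ℕ) by norm_num, ← Real.log_pow]
    exact Real.log_le_log (by norm_num) (by nlinarith)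
  have hl : Real.log (4 * i) ≤ 3 * Real.log i := by
    rw [Real.log_mul (by norm_num) (by linarith)]
    linarith
  rcases le_or_gt ((4 * i) ^ 3) (m + 1) with h | h
  · obtain ⟨R, rfl⟩ : ∃ R, i = R + 1 := ⟨i - 1, by omega⟩
    have h1 := upper_AS hp fun n => AS_unif (Fin n) (by omega) rfl (m + 1) h
    have h2 : (m.choose R : ℝ) ≤ ((m + 1 : ℕ) : ℝ) ^ R / R.factorial :=
      (Nat.cast_le.2 (Nat.choose_le_choose R (Nat.le_succ m))).trans (Nat.choose_le_pow_div R _)
    push_cast at hi2 hl0 hl4 hl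
    have h3 : Real.log (4 * (4 * ((R : ℝ) + 1)) ^ 4) ≤ 15 * Real.log (R + 1) := by
      rw [Real.log_mul (by norm_num) (by positivity), Real.log_pow]
      push_cast
      linarith
    have h4 : 0 ≤ Real.log (4 * (4 * ((R : ℝ) + 1)) ^ 4) :=
      Real.log_nonneg (by nlinarith [one_le_pow₀ (n := 4) (show 1 ≤ 4 * ((R : ℝ) + 1) by linarith)])
    rw [Nat.add_sub_cancel]
    generalize Real.log (4 * (4 * ((R : ℝ) + 1)) ^ 4) = L at h1 h3 h4
    calc _ ≤ 8 * (2 * R + 3) * L * R.factorial / ((m + 1 : ℕ) : ℝ) ^ R *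
          (((m + 1 : ℕ) : ℝ) ^ R / R.factorial) :=
          (mul_le_mul_of_nonneg_right h1 (by positivity)).trans
            (mul_le_mul_of_nonneg_left h2 (by positivity))
      _ = 8 * (2 * R + 3) * L := by field_simp
      _ ≤ 8 * (3 * (R + 1)) * (15 * Real.log (R + 1)) := by gcongr; linarith
      _ = _ := by push_cast; ring
  · refine (upper_log hi him hp).trans ?_
    have h1 : (((m + 1).choose i : ℕ) : ℝ) ≤ ((4 * (i : ℝ)) ^ 3) ^ i := by
      exact_mod_cast (Nat.choose_le_pow (m + 1) i).trans (Nat.pow_le_pow_left h.le i)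
    have h2 := Real.log_le_log (by exact_mod_cast Nat.choose_pos (by omega)) h1
    rw [Real.log_pow, Real.log_pow] at h2
    push_cast at h2
    nlinarith [mul_le_mul_of_nonneg_left hl (show (0 : ℝ) ≤ i by linarith), mul_pos
      (show (0 : ℝ) < i by linarith) hl0]

/-- the upper half of the uniform estimate -/
theorem upper_unif {m i : ℕ} (hi : 2 ≤ i) (him : i ≤ m) {p : ℝ}
    (hp : Tendsto (fun n : ℕ => (exF (m + 1) i n : ℝ) / n.choose (m + 1)) atTop (𝓝 p)) :
    (1 - p) * m.choose (i - 1) ≤ 360 * min (i * Real.log i) (Real.log ((m + 1).choose i)) := by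
  rw [mul_min_of_nonneg _ _ (by norm_num : (0 : ℝ) ≤ 360)]
  refine le_min (upper_ilog hi him hp) ((upper_log hi him hp).trans ?_)
  have := Real.log_natCast_nonneg ((m + 1).choose i)
  linarith

end Pool.Agent.P.MP_7badbe_co
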